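import Pool.Agent.Helper76.FT.GoalsG

/-!
# Packet FT-MN (GMn) for MP_39e2b7_an
-/

set_option autoImplicit false

namespace Pool.Agent.Helper74.FT

open Complex Set Filter Topology
open Pool.Agent.Helper76.FT

theorem ft_mn (hReg : GReg) (hMom : GMom) : GMn := by
  intro S hS
  obtain ⟨-, hreg, -⟩ := hReg S hS
  obtain ⟨k0, M, hk0, -, hpc, -, hd⟩ := hMom S hS
  have h0 : (0:ℝ) ∈ Icc (0:ℝ) 1 := by simp
  have hd0 := (hd 0 h0).2.2
  -- points of the region are in the neighbourhood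
  have hnb : ∀ x v : ℝ, (x, v) ∈ S.Reg 0 → ((x : ℂ), (v : ℂ)) ∈ S.Nb 0 S.r := by
    intro x v hv
    exact ⟨(x, v), hv, by simpa using hS.hr, by simpa using hS.hr⟩
  have hmem : ∀ Y ∈ Icc S.a S.b, ∀ x : ℝ, (x, S.V Y x 0) ∈ S.Reg 0 := by
    intro Y hY x
    exact hreg 0 h0 x Y hY
  -- joint continuity
  have hcont : Continuous (fun z : (Icc S.a S.b) × ℝ =>
      (S.p 0 (z.2 : ℂ) (S.V (z.1 : ℝ) z.2 0 : ℂ)).re) := by
    have hV : Continuous (fun z : (Icc S.a S.b) × ℝ => S.V (z.1 : ℝ) z.2 0) := by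
      have hmap : Continuous (fun z : (Icc S.a S.b) × ℝ => (((z.1 : ℝ), z.2, (0:ℝ)) : ℝ × ℝ × ℝ)) := by
        fun_prop
      exact hS.Vcont.comp_continuous hmap (fun z => ⟨z.1.2, mem_univ _, h0⟩)
    have hmap : Continuous (fun z : (Icc S.a S.b) × ℝ =>
        (((0:ℝ), ((z.2 : ℂ), (S.V (z.1 : ℝ) z.2 0 : ℂ))) : ℝ × (ℂ × ℂ))) := by
      have h1 : Continuous (fun z : (Icc S.a S.b) × ℝ => (S.V (z.1 : ℝ) z.2 0 : ℂ)) :=
        Complex.continuous_ofReal.comp hV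
      have h2 : Continuous (fun z : (Icc S.a S.b) × ℝ => (z.2 : ℂ)) :=
        Complex.continuous_ofReal.comp continuous_snd
      exact continuous_const.prodMk (h2.prodMk h1)
    have h3 := hpc.comp_continuous hmap (fun z => ⟨h0, hnb _ _ (hmem _ z.1.2 _)⟩)
    exact Complex.continuous_re.comp h3
  have hcontx : ∀ Y ∈ Icc S.a S.b, Continuous (fun x : ℝ => (S.p 0 (x : ℂ) (S.V Y x 0 : ℂ)).re) := by
    intro Y hY
    exact hcont.comp (Continuous.prodMk (continuous_const (y := (⟨Y, hY⟩ : Icc S.a S.b)))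
      continuous_id)
  -- pointwise strict monotonicity
  have hlt : ∀ Y ∈ Icc S.a S.b, ∀ Y' ∈ Icc S.a S.b, Y < Y' → ∀ x : ℝ,
      (S.p 0 (x : ℂ) (S.V Y x 0 : ℂ)).re < (S.p 0 (x : ℂ) (S.V Y' x 0 : ℂ)).re := by
    intro Y hY Y' hY' hlt x
    have hv : S.V Y x 0 < S.V Y' x 0 := hS.Vmono Y hY Y' hY' hlt x 0 h0
    have hseg : ∀ s ∈ Icc (S.V Y x 0) (S.V Y' x 0), (x, s) ∈ S.Reg 0 := by
      intro s hs
      exact ⟨(hmem Y hY x).1.trans hs.1, hs.2.trans (hmem Y' hY' x).2⟩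
    have hder : ∀ s ∈ Icc (S.V Y x 0) (S.V Y' x 0),
        HasDerivAt (fun s : ℝ => (S.p 0 (x : ℂ) (s : ℂ)).re)
          (S.κ ((x : ℂ) - (0:ℝ) * (s : ℂ)) (s : ℂ)).re s ∧
        0 < (S.κ ((x : ℂ) - (0:ℝ) * (s : ℂ)) (s : ℂ)).re := by
      intro s hs
      obtain ⟨h1, -, -, h4, -⟩ := hd0 ((x : ℂ), (s : ℂ)) (hnb x s (hseg s hs))
      refine ⟨?_, lt_of_lt_of_le hk0 h4⟩
      have h5 : HasDerivAt (fun w => S.p 0 (x : ℂ) w) (S.κ ((x : ℂ) - (0:ℝ) * (s : ℂ)) (s : ℂ))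
          (s : ℂ) := h1
      exact h5.real_of_complex
    have hmono : StrictMonoOn (fun s : ℝ => (S.p 0 (x : ℂ) (s : ℂ)).re)
        (Icc (S.V Y x 0) (S.V Y' x 0)) := by
      apply strictMonoOn_of_deriv_pos (convex_Icc _ _)
      · intro s hs
        exact (hder s hs).1.continuousAt.continuousWithinAt
      · intro s hs
        rw [interior_Icc] at hs
        have := hder s (Ioo_subset_Icc_self hs)
        rw [this.1.deriv]
        exact this.2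
    exact hmono (left_mem_Icc.2 hv.le) (right_mem_Icc.2 hv.le) hv
  refine ⟨?_, ?_, ?_⟩
  · rw [continuousOn_iff_continuous_restrict]
    have := intervalIntegral.continuous_parametric_intervalIntegral_of_continuous'
      (f := fun (Y : Icc S.a S.b) (x : ℝ) => (S.p 0 (x : ℂ) (S.V (Y : ℝ) x 0 : ℂ)).re)
      (μ := MeasureTheory.volume) hcont 0 1
    exact this
  · intro Y hY Y' hY' hYY
    show (∫ x in (0:ℝ)..1, (S.p 0 (x : ℂ) (S.V Y x 0 : ℂ)).re) <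
      ∫ x in (0:ℝ)..1, (S.p 0 (x : ℂ) (S.V Y' x 0 : ℂ)).re
    apply intervalIntegral.integral_lt_integral_of_continuousOn_of_le_of_exists_lt (by norm_num)
      (hcontx Y hY).continuousOn (hcontx Y' hY').continuousOn
    · intro x _
      exact (hlt Y hY Y' hY' hYY x).le
    · exact ⟨0, h0, hlt Y hY Y' hY' hYY 0⟩
  · show (∫ x in (0:ℝ)..1, (S.p 0 (x : ℂ) (S.V 0 x 0 : ℂ)).re) = 0
    have : ∀ x : ℝ, (S.p 0 (x : ℂ) (S.V 0 x 0 : ℂ)).re = 0 := by
      intro x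
      rw [hS.Vzero x 0 h0]
      simp [Sys.p]
    simp [this]

end Pool.Agent.Helper74.FT
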